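import Pool.Agent.TH748.MU.Final

set_option autoImplicit false

open Pool.Agent.Helper227 Pool.Agent.Helper227.EN Pool.Agent.TH748.MU

namespace Pool.Agent.Results.MP_06bc04_lc.NoMinimalUpperBound

/-- Negative answer to Q1, for every completion and every nonstandard model. Let `T` be a completion
of Peano arithmetic (a maximal consistent theory which contains `PA`), and let `A` be any
nonstandard model of `T` with universe `ℕ`. Then
(1) there is a set `B`, strictly Turing below the atomic diagram `diag A` of `A`, such that every set
in the standard system of `A` is Turing reducible to `B`;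
(2) for every `n` the set `Tn T n` of the Gödel numbers of the members of `T_n = T ∩ Σ_n` belongs
to the standard system of `A`;
(3) hence the degree of `A` is not a minimal upper bound of the degrees of `T_0, T_1, T_2, ...`. -/
theorem result (T : LA.Theory) (hT : T.IsMaximal) (hPA : PA ⊆ T) (A : LA.Structure ℕ)
    (hA : @FirstOrder.Language.Theory.Model LA ℕ A T)
    (hns : ¬ Nonempty (@FirstOrder.Language.Equiv LA ℕ ℕ A stdStr)) :
    (∃ B : ℕ → Bool, TLe B (diag A) ∧ ¬ TLe (diag A) B ∧ ∀ X ∈ @SSy ℕ A, TLe X B) ∧
      (∀ n, Tn T n ∈ @SSy ℕ A) ∧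
      ¬ IsMinUB (diag A) (Tn T) :=
  main T hT hPA A hA hns

end Pool.Agent.Results.MP_06bc04_lc.NoMinimalUpperBound
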